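import Pool.Agent.H498R2.KlMain

/-! Weil's bound for Kloosterman sums over finite fields of odd order. -/

set_option autoImplicit false
set_option linter.unusedSectionVars false

namespace Pool.Agent.H498R2.Kl

open Polynomial Finset
open Pool.Agent.H341R2.Sharp

section Final

variable {F : Type*} [Field F] [Fintype F] [DecidableEq F]

/-- the `L`-polynomial of a Kloosterman sum -/
noncomputable def LK (ψ : AddChar F ℂ) (a b : F) : ℂ[X] :=
  ∑ n ∈ range 3, C (AG (lamK ψ a b) n) * X ^ n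

theorem LK_coeff {ψ : AddChar F ℂ} (hψ : ψ ≠ 1) {a : F} (ha : a ≠ 0) (b : F) (n : ℕ) :
    (LK ψ a b).coeff n = AG (lamK ψ a b) n := by
  rw [LK, finsetSum_coeff]
  simp_rw [coeff_C_mul_X_pow]
  by_cases hn : n < 3
  · rw [sum_eq_single n]
    · simp
    · intro m _ hm
      rw [if_neg (Ne.symm hm)]
    · intro h
      exact absurd (mem_range.2 hn) h
  · rw [AK_eq_zero hψ ha b n (by omega)]
    apply sum_eq_zero
    intro m hm
    rw [mem_range] at hm
    rw [if_neg (by omega)]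

theorem LK_zero {ψ : AddChar F ℂ} (hψ : ψ ≠ 1) {a : F} (ha : a ≠ 0) (b : F) :
    (LK ψ a b).coeff 0 = 1 := by
  rw [LK_coeff hψ ha, AG_zero (lamK_mult ψ a b)]

theorem LK_natDegree {ψ : AddChar F ℂ} (hψ : ψ ≠ 1) {a : F} (ha : a ≠ 0) (b : F) :
    (LK ψ a b).natDegree ≤ 2 := by
  rw [natDegree_le_iff_coeff_eq_zero]
  intro n hn
  rw [LK_coeff hψ ha, AK_eq_zero hψ ha b n (by omega)]

theorem LK_HID {ψ : AddChar F ℂ} (hψ : ψ ≠ 1) {a : F} (ha : a ≠ 0) (b : F) :
    HID (LK ψ a b) (TG (lamK ψ a b)) := by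
  intro n
  simp_rw [LK_coeff hψ ha]
  exact n_mul_AG (lamK_mult ψ a b) n

theorem sum_TG_bound (hF : ringChar F ≠ 2) {ψ : AddChar F ℂ} (hψ : ψ.IsPrimitive) {a b : F}
    (ha : a ≠ 0) (hb : b ≠ 0) (m : ℕ) (hm : 1 ≤ m) :
    ‖∑ c ∈ univ.filter (fun c : F => c ≠ 0), TG (lamK ψ (c * a) (c * b)) m‖ ≤
      2 * Fintype.card F * (Real.sqrt (Fintype.card F)) ^ m := by
  classical
  obtain ⟨p, hp⟩ := CharP.exists F
  have : Fact (Nat.Prime p) := ⟨CharP.char_is_prime F p⟩
  have : NeZero m := ⟨by omega⟩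
  let E := FiniteField.Extension F p m
  let _ : Fintype E := Fintype.ofFinite E
  have hfr : Module.finrank F E = m := FiniteField.finrank_extension F p m
  have hcard : Fintype.card E = Fintype.card F ^ m := by
    rw [Module.card_eq_pow_finrank (K := F) (V := E), hfr]
  have hE : ringChar E ≠ 2 := by
    rwa [← Algebra.ringChar_eq F E]
  have h2 : Real.sqrt (Fintype.card E) = (Real.sqrt (Fintype.card F)) ^ m := by
    rw [hcard]
    push_cast
    rw [Real.sqrt_eq_iff_mul_self_eq (by positivity) (by positivity), ← mul_pow,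
      Real.mul_self_sqrt (by positivity)]
  have h3 := sum_KE_bound (E := E) hE hψ ha hb
  rw [h2] at h3
  have h4 : ∀ c : F, TG (lamK ψ (c * a) (c * b)) m = KE E ψ (c * a) (c * b) := by
    intro c
    have h5 := TK_eq_sum (E := E) ψ (c * a) (c * b)
    rw [hfr] at h5
    exact h5
  simp_rw [h4]
  exact h3

/-- **Weil's bound** for Kloosterman sums over a finite field of odd order. -/
theorem kloosterman_le (hF : ringChar F ≠ 2) {ψ : AddChar F ℂ} (hψ : ψ.IsPrimitive) {a b : F}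
    (ha : a ≠ 0) (hb : b ≠ 0) :
    ‖∑ x : F, (if x = 0 then (0 : ℂ) else ψ (a * x + b * x⁻¹))‖ ≤
      2 * Real.sqrt (Fintype.card F) := by
  have hψ1 : ψ ≠ 1 := by
    rintro rfl
    exact hψ one_ne_zero (by simp)
  have hq0 : 0 < Real.sqrt (Fintype.card F) :=
    Real.sqrt_pos.2 (by exact_mod_cast Fintype.card_pos)
  set s := univ.filter (fun c : F => c ≠ 0) with hs
  set A : ℂ[X] := ∏ c ∈ s, LK ψ (c * a) (c * b) with hA
  have hc : ∀ c ∈ s, c * a ≠ 0 := by
    intro c hc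
    rw [hs, mem_filter] at hc
    exact mul_ne_zero hc.2 ha
  have hid : HID A (fun m => ∑ c ∈ s, TG (lamK ψ (c * a) (c * b)) m) :=
    HID.prod s _ _ fun c hcs => LK_HID hψ1 (hc c hcs) _
  have hA0 : A.coeff 0 = 1 := by
    rw [hA, coeff_zero_prod]
    exact prod_eq_one fun c hcs => LK_zero hψ1 (hc c hcs) _
  have hroot : ∀ z : ℂ, (LK ψ a b).eval z = 0 → 1 ≤ Real.sqrt (Fintype.card F) * ‖z‖ := by
    intro z hz
    apply root_norm A hA0 (fun m => ∑ c ∈ s, TG (lamK ψ (c * a) (c * b)) m)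
      (Real.sqrt (Fintype.card F)) (2 * Fintype.card F) hq0 (by positivity)
    · intro m hm
      exact sum_TG_bound hF hψ ha hb m hm
    · exact hid
    · rw [hA, eval_prod]
      apply prod_eq_zero (i := (1 : F))
      · rw [hs, mem_filter]
        exact ⟨mem_univ _, one_ne_zero⟩
      · rw [one_mul, one_mul]
        exact hz
  have h1 := coeff_one_le (LK ψ a b) (LK_zero hψ1 ha b) _ hq0 hroot 2 (LK_natDegree hψ1 ha b)
  have h2 : (LK ψ a b).coeff 1 = ∑ x : F, (if x = 0 then (0 : ℂ) else ψ (a * x + b * x⁻¹)) := by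
    have h3 := LK_HID hψ1 ha b 1
    rw [Icc_self, sum_singleton, Nat.sub_self, LK_zero hψ1 ha, one_mul, Nat.cast_one,
      one_mul] at h3
    rw [h3]
    have h4 := TK_eq_sum (F := F) (E := F) ψ a b
    rw [Module.finrank_self] at h4
    rw [h4]
    apply sum_congr rfl
    intro x _
    simp
  rw [h2] at h1
  exact_mod_cast h1

theorem kloosterman_units_le (hF : ringChar F ≠ 2) {ψ : AddChar F ℂ} (hψ : ψ.IsPrimitive)
    {a b : F} (ha : a ≠ 0) (hb : b ≠ 0) :
    ‖∑ x : Fˣ, ψ (a * (x : F) + b * ((x⁻¹ : Fˣ) : F))‖ ≤ 2 * Real.sqrt (Fintype.card F) := by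
  have h := kloosterman_le hF hψ ha hb
  have h1 : ∑ x : F, (if x = 0 then (0 : ℂ) else ψ (a * x + b * x⁻¹)) =
      ∑ x : Fˣ, ψ (a * (x : F) + b * ((x⁻¹ : Fˣ) : F)) := by
    have h2 : ∀ x : F, (if x = 0 then (0 : ℂ) else ψ (a * x + b * x⁻¹)) =
        if x ≠ 0 then ψ (a * x + b * x⁻¹) else 0 := by
      intro x
      by_cases h0 : x = 0 <;> simp [h0]
    simp_rw [h2]
    rw [← sum_filter]
    symm
    refine sum_bij (fun (x : Fˣ) _ => (x : F)) ?_ ?_ ?_ ?_
    · intro x _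
      rw [mem_filter]
      exact ⟨mem_univ _, x.ne_zero⟩
    · intro x _ y _ hxy
      exact Units.ext hxy
    · intro x hx
      rw [mem_filter] at hx
      exact ⟨Units.mk0 x hx.2, mem_univ _, rfl⟩
    · intro x _
      simp
  rw [← h1]
  exact h

end Final

end Pool.Agent.H498R2.Kl
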