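import Pool.Agent.H306R2.SM.Defs
import Pool.Agent.H498R2.KlWeil

/-! Weil's bound for Kloosterman sums modulo a prime. -/

set_option autoImplicit false

namespace Pool.Agent.H498R2

open Finset Pool.Agent.H306R2 Pool.Agent.H306R2.SM

/-- `|K(a,b;p)| ≤ 2 √p` -/
theorem kloosterman_prime (p : ℕ) [Fact p.Prime] (a b : ZMod p) (ha : a ≠ 0) (hb : b ≠ 0) :
    ‖∑ x : (ZMod p)ˣ, (ZMod.stdAddChar
      (a * (x : ZMod p) + b * ((x⁻¹ : (ZMod p)ˣ) : ZMod p)) : ℂ)‖ ≤ 2 * Real.sqrt p := by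
  by_cases h2 : p = 2
  · subst h2
    refine (norm_sum_le _ _).trans ?_
    have h1 : ∀ x : (ZMod 2)ˣ, ‖(ZMod.stdAddChar
        (a * (x : ZMod 2) + b * ((x⁻¹ : (ZMod 2)ˣ) : ZMod 2)) : ℂ)‖ ≤ 1 := by
      intro x
      exact (AddChar.norm_apply _ _).le
    refine (sum_le_sum fun x _ => h1 x).trans ?_
    rw [sum_const, card_univ, ZMod.card_units_eq_totient, Nat.totient_two]
    have : (1 : ℝ) ≤ Real.sqrt 2 := by
      rw [Real.one_le_sqrt]
      norm_num
    simp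
    linarith
  · have hF : ringChar (ZMod p) ≠ 2 := by
      rw [ZMod.ringChar_zmod_n]
      exact h2
    have h := Kl.kloosterman_units_le hF (ZMod.isPrimitive_stdAddChar p) ha hb
    rw [ZMod.card] at h
    exact h

/-- T8 (Weil bound) -/
theorem kloosterman_weil : KB (1 / 2) := by
  refine ⟨2, fun p _ a b ha hb => ?_⟩
  rw [← Real.sqrt_eq_rpow]
  exact kloosterman_prime p a b ha hb

end Pool.Agent.H498R2
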