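import Mathlib
import Pool.Agent.H341R2.WeilSharp

/-! The logarithmic derivative identity for an arbitrary multiplicative function on the monic
polynomials over a finite field. -/

set_option autoImplicit false

namespace Pool.Agent.H498R2.Kl

open Polynomial Finset
open Pool.Agent.H341R2.Sharp

set_option linter.unusedSectionVars false

section Gen

variable {F : Type*} [Field F] [Fintype F] [DecidableEq F]

/-- sum of `l` over the monic polynomials of degree `n` -/
noncomputable def AG (l : F[X] → ℂ) (n : ℕ) : ℂ := ∑ h ∈ Mon F n, l h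

/-- the sum over irreducible polynomials of degree dividing `m` -/
noncomputable def TG (l : F[X] → ℂ) (m : ℕ) : ℂ :=
  ∑ P ∈ (Irr F m).filter (fun P => P.natDegree ∣ m), P.natDegree * l P ^ (m / P.natDegree)

/-- multiplicativity on monic polynomials -/
def Mult (l : F[X] → ℂ) : Prop :=
  l 1 = 1 ∧ ∀ g h : F[X], g.Monic → h.Monic → l (g * h) = l g * l h

theorem Mult.pow {l : F[X] → ℂ} (hl : Mult l) {g : F[X]} (hg : g.Monic) (k : ℕ) :
    l (g ^ k) = l g ^ k := by
  induction k with
  | zero => simp [hl.1]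
  | succ k ih => rw [pow_succ, hl.2 _ _ (hg.pow k) hg, ih, pow_succ]

theorem AG_zero {l : F[X] → ℂ} (hl : Mult l) : AG l 0 = 1 := by
  unfold AG
  rw [Mon_zero, sum_singleton, hl.1]

open scoped Classical in
theorem sum_pow_dvd_G {l : F[X] → ℂ} (hl : Mult l) (P : F[X]) (hP : P.Monic) (n k : ℕ) :
    ∑ h ∈ Mon F n, (if P ^ k ∣ h then l h else 0) =
      if k * P.natDegree ≤ n then l P ^ k * AG l (n - k * P.natDegree) else 0 := by
  rw [← sum_filter]
  split_ifs with hkn
  · unfold AG
    rw [mul_sum]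
    symm
    refine sum_bij' (fun g _ => P ^ k * g) (fun h _ => h /ₘ (P ^ k)) ?_ ?_ ?_ ?_ ?_
    · intro g hg
      rw [mem_Mon] at hg
      rw [mem_filter, mem_Mon]
      refine ⟨⟨(hP.pow k).mul hg.1, ?_⟩, dvd_mul_right _ _⟩
      rw [(hP.pow k).natDegree_mul hg.1, hP.natDegree_pow, hg.2]
      omega
    · intro h hh
      rw [mem_filter, mem_Mon] at hh
      obtain ⟨g, rfl⟩ := hh.2
      have hg : g.Monic := (hP.pow k).of_mul_monic_left hh.1.1
      have h1 := hh.1.2
      rw [(hP.pow k).natDegree_mul hg, hP.natDegree_pow] at h1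
      rw [mul_divByMonic_cancel_left _ (hP.pow k), mem_Mon]
      exact ⟨hg, by omega⟩
    · intro g hg
      exact mul_divByMonic_cancel_left _ (hP.pow k)
    · intro h hh
      rw [mem_filter] at hh
      obtain ⟨g, rfl⟩ := hh.2
      rw [mul_divByMonic_cancel_left _ (hP.pow k)]
    · intro g hg
      rw [mem_Mon] at hg
      rw [hl.2 _ _ (hP.pow k) hg.1, hl.pow hP]
  · apply sum_eq_zero
    intro h hh
    rw [mem_filter, mem_Mon] at hh
    exfalso
    have := natDegree_le_of_dvd hh.2 hh.1.1.ne_zero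
    rw [hP.natDegree_pow, hh.1.2] at this
    exact hkn this

theorem TG_eq (l : F[X] → ℂ) (n m : ℕ) (hm : 1 ≤ m) (hmn : m ≤ n) :
    TG l m = ∑ P ∈ Irr F n, ∑ k ∈ Icc 1 n,
      (if k * P.natDegree = m then (P.natDegree : ℂ) * l P ^ k else 0) := by
  have h1 : ∀ P ∈ Irr F n, ∑ k ∈ Icc 1 n,
      (if k * P.natDegree = m then (P.natDegree : ℂ) * l P ^ k else 0) =
      if P.natDegree ∣ m then (P.natDegree : ℂ) * l P ^ (m / P.natDegree) else 0 := by
    intro P hP
    rw [mem_Irr] at hP
    have h3 : 1 ≤ P.natDegree := hP.2.1.natDegree_pos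
    split_ifs with hdvd
    · obtain ⟨k, hk⟩ := hdvd
      have hkm : k * P.natDegree = m := by rw [hk]; ring
      have hk1 : 1 ≤ k := by
        rcases Nat.eq_zero_or_pos k with h0 | h0
        · rw [h0] at hkm; omega
        · exact h0
      have hkn : k ≤ n := by nlinarith
      rw [sum_eq_single k]
      · rw [if_pos hkm]
        have : m / P.natDegree = k := by
          rw [hk]
          exact Nat.mul_div_cancel_left _ (by omega)
        rw [this]
      · intro j _ hj
        rw [if_neg]
        intro hjm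
        exact hj (Nat.eq_of_mul_eq_mul_right (by omega) (hjm.trans hkm.symm))
      · intro hk'
        exact absurd (mem_Icc.2 ⟨hk1, hkn⟩) hk'
    · apply sum_eq_zero
      intro k _
      rw [if_neg]
      intro hk
      exact hdvd ⟨k, by rw [← hk]; ring⟩
  rw [sum_congr rfl h1, ← sum_filter]
  unfold TG
  apply sum_congr _ fun _ _ => rfl
  ext P
  rw [mem_filter, mem_filter, mem_Irr, mem_Irr]
  constructor
  · rintro ⟨⟨h1, h2, h3⟩, h4⟩
    exact ⟨⟨h1, h2, by omega⟩, h4⟩
  · rintro ⟨⟨h1, h2, h3⟩, h4⟩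
    exact ⟨⟨h1, h2, Nat.le_of_dvd (by omega) h4⟩, h4⟩

/-- the logarithmic derivative identity -/
theorem n_mul_AG {l : F[X] → ℂ} (hl : Mult l) (n : ℕ) :
    (n : ℂ) * AG l n = ∑ m ∈ Icc 1 n, AG l (n - m) * TG l m := by
  classical
  have h1 : (n : ℂ) * AG l n = ∑ P ∈ Irr F n, ∑ k ∈ Icc 1 n, (P.natDegree : ℂ) *
      ∑ h ∈ Mon F n, (if P ^ k ∣ h then l h else 0) := by
    have h2 : (n : ℂ) * AG l n = ∑ h ∈ Mon F n, ∑ P ∈ Irr F n, ∑ k ∈ Icc 1 n,
        (P.natDegree : ℂ) * (if P ^ k ∣ h then l h else 0) := by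
      unfold AG
      rw [mul_sum]
      apply sum_congr rfl
      intro h hh
      have hc := count_dvd hh
      have hc' : (n : ℂ) = ∑ P ∈ Irr F n, ∑ k ∈ Icc 1 n,
          (if P ^ k ∣ h then (P.natDegree : ℂ) else 0) := by
        have := congrArg (fun z : ℤ => (z : ℂ)) hc
        push_cast at this
        exact this.symm
      rw [hc', sum_mul]
      apply sum_congr rfl
      intro P _
      rw [sum_mul]
      apply sum_congr rfl
      intro k _
      split_ifs <;> simp
    rw [h2, sum_comm]
    apply sum_congr rfl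
    intro P _
    rw [sum_comm]
    apply sum_congr rfl
    intro k _
    rw [mul_sum]
  rw [h1]
  have h3 : ∀ P ∈ Irr F n, ∑ k ∈ Icc 1 n, (P.natDegree : ℂ) *
      ∑ h ∈ Mon F n, (if P ^ k ∣ h then l h else 0) =
      ∑ k ∈ Icc 1 n, ∑ m ∈ Icc 1 n, AG l (n - m) *
        (if k * P.natDegree = m then (P.natDegree : ℂ) * l P ^ k else 0) := by
    intro P hP
    rw [mem_Irr] at hP
    have hd : 1 ≤ P.natDegree := hP.2.1.natDegree_pos
    apply sum_congr rfl
    intro k hk
    rw [mem_Icc] at hk
    rw [sum_pow_dvd_G hl P hP.1]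
    split_ifs with hkn
    · rw [sum_eq_single (k * P.natDegree)]
      · rw [if_pos rfl]; ring
      · intro m _ hm
        rw [if_neg (Ne.symm hm), mul_zero]
      · intro hk'
        exact absurd (mem_Icc.2 ⟨Nat.mul_pos (by omega) hd, hkn⟩) hk'
    · rw [mul_zero]
      symm
      apply sum_eq_zero
      intro m hm
      rw [mem_Icc] at hm
      rw [if_neg (by omega), mul_zero]
  rw [sum_congr rfl h3]
  have h4 : ∑ m ∈ Icc 1 n, AG l (n - m) * TG l m = ∑ m ∈ Icc 1 n, ∑ P ∈ Irr F n,
      ∑ k ∈ Icc 1 n,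
      AG l (n - m) * (if k * P.natDegree = m then (P.natDegree : ℂ) * l P ^ k else 0) := by
    apply sum_congr rfl
    intro m hm
    rw [mem_Icc] at hm
    rw [TG_eq l n m hm.1 hm.2, mul_sum]
    apply sum_congr rfl
    intro P _
    rw [mul_sum]
  rw [h4]
  symm
  rw [sum_comm]
  apply sum_congr rfl
  intro P _
  rw [sum_comm]

end Gen

/-- the logarithmic derivative relation between coefficients and power sums -/
def HID (a : ℂ[X]) (S : ℕ → ℂ) : Prop :=
  ∀ n : ℕ, (n : ℂ) * a.coeff n = ∑ m ∈ Icc 1 n, a.coeff (n - m) * S m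

theorem HID.iff (a : ℂ[X]) (S : ℕ → ℂ) : HID a S ↔
    (PowerSeries.X : PowerSeries ℂ) * PowerSeries.derivative ℂ (a : PowerSeries ℂ) =
      (a : PowerSeries ℂ) * PowerSeries.mk (fun m => if m = 0 then 0 else S m) := by
  rw [PowerSeries.ext_iff]
  unfold HID
  refine forall_congr' fun n => ?_
  have h1 : PowerSeries.coeff n ((PowerSeries.X : PowerSeries ℂ) *
      PowerSeries.derivative ℂ (a : PowerSeries ℂ)) = (n : ℂ) * a.coeff n := by
    cases n with
    | zero => simp
    | succ k =>
      rw [PowerSeries.coeff_succ_X_mul, PowerSeries.coeff_derivative, Polynomial.coeff_coe]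
      push_cast
      ring
  have h2 : PowerSeries.coeff n ((a : PowerSeries ℂ) *
      PowerSeries.mk (fun m => if m = 0 then 0 else S m)) =
      ∑ m ∈ Icc 1 n, a.coeff (n - m) * S m := by
    rw [mul_comm, PowerSeries.coeff_mul, Nat.sum_antidiagonal_eq_sum_range_succ_mk]
    have h3 : (range (n + 1)).filter (fun m => m ≠ 0) = Icc 1 n := by
      ext m
      simp only [mem_filter, mem_range, mem_Icc]
      omega
    rw [← h3, sum_filter]
    apply sum_congr rfl
    intro m _
    rw [PowerSeries.coeff_mk, Polynomial.coeff_coe]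
    by_cases h0 : m = 0
    · simp [h0]
    · rw [if_neg h0, if_pos h0, mul_comm]
  rw [h1, h2]

theorem HID.mul {a b : ℂ[X]} {S U : ℕ → ℂ} (ha : HID a S) (hb : HID b U) :
    HID (a * b) (fun m => S m + U m) := by
  rw [HID.iff] at ha hb ⊢
  have h1 : PowerSeries.mk (fun m => if m = 0 then 0 else S m + U m) =
      PowerSeries.mk (fun m => if m = 0 then 0 else S m) +
      PowerSeries.mk (fun m => if m = 0 then 0 else U m) := by
    ext n
    simp only [map_add, PowerSeries.coeff_mk]
    split_ifs <;> simp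
  rw [h1, Polynomial.coe_mul, Derivation.leibniz]
  simp only [smul_eq_mul]
  linear_combination (b : PowerSeries ℂ) * ha + (a : PowerSeries ℂ) * hb

theorem HID.one : HID 1 (fun _ => 0) := by
  intro n
  simp only [mul_zero, sum_const_zero]
  rcases Nat.eq_zero_or_pos n with h | h
  · simp [h]
  · rw [Polynomial.coeff_one, if_neg (by omega), mul_zero]

theorem HID.prod {ι : Type*} (s : Finset ι) (a : ι → ℂ[X]) (S : ι → ℕ → ℂ)
    (h : ∀ i ∈ s, HID (a i) (S i)) : HID (∏ i ∈ s, a i) (fun m => ∑ i ∈ s, S i m) := by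
  classical
  induction s using Finset.induction_on with
  | empty => simpa using HID.one
  | insert i s hi ih =>
    rw [prod_insert hi]
    have h1 := (h i (mem_insert_self i s)).mul
      (ih fun j hj => h j (mem_insert_of_mem hj))
    simp_rw [sum_insert hi]
    exact h1

theorem coeff_one_le (a : ℂ[X]) (ha0 : a.coeff 0 = 1) (r : ℝ) (hr : 0 < r)
    (hroot : ∀ z : ℂ, a.eval z = 0 → 1 ≤ r * ‖z‖)
    (k : ℕ) (hk : a.natDegree ≤ k) : ‖a.coeff 1‖ ≤ k * r := by
  have ha : a ≠ 0 := by
    rintro rfl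
    simp at ha0
  have h0 : a.eval 0 = 1 := by rw [← coeff_zero_eq_eval_zero, ha0]
  have h1 := (IsAlgClosed.splits a).eval_derivative_div_eval_of_ne_zero (x := 0)
    (by rw [h0]; exact one_ne_zero)
  have h2 : a.derivative.eval 0 = a.coeff 1 := by
    rw [← coeff_zero_eq_eval_zero, coeff_derivative]
    simp
  rw [h0, div_one, h2] at h1
  rw [h1]
  refine (Multiset.le_sum_of_subadditive norm norm_zero.le (fun x y => norm_add_le x y) _).trans ?_
  have h3 : ((a.roots.map fun z => 1 / (0 - z)).map norm).sum ≤ (a.roots.map fun _ => r).sum := by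
    rw [Multiset.map_map]
    apply Multiset.sum_map_le_sum_map
    intro z hz
    rw [mem_roots ha] at hz
    have h4 := hroot z hz
    have hz0 : 0 < ‖z‖ := by
      rcases (norm_nonneg z).eq_or_lt with h | h
      · rw [← h, mul_zero] at h4
        linarith
      · exact h
    simp only [Function.comp, zero_sub, norm_div, norm_one, norm_neg]
    rw [div_le_iff₀ hz0]
    exact h4
  refine h3.trans ?_
  rw [Multiset.map_const', Multiset.sum_replicate, nsmul_eq_mul]
  refine mul_le_mul_of_nonneg_right ?_ hr.le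
  exact_mod_cast (card_roots' a).trans hk

end Pool.Agent.H498R2.Kl
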