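import Pool.Agent.H549R2.PM10
import Pool.Agent.H618R2.Skew.Model

/-!
# `#P`-membership and `#P`-hardness for staircase matrices (helper498)
-/

namespace Pool.Agent.NPC.H498Stair

open Pool.Agent.H549R2.Convex Pool.Agent.H549R2.PM Pool.Agent.NPC.Cnt Pool.Agent.NPC.H549Convex
  Pool.Agent.NPC.H549PM Pool.Agent.H618R2.Skew

/-! ### Composition of two nonadaptive reductions -/

section Compose

variable {α β γ : Type} [TEnc α] [TEnc β] [TEnc γ]

/-- the block length -/
def cL (h1 : α → List β) (h2 : β → List γ) (a : α) : ℕ := ((h1 a).flatMap h2).length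

/-- the queries of the composed reduction -/
def cQ (d0 : β) (e0 : γ) (h1 : α → List β) (h2 : β → List γ) (a : α) : List γ :=
  (List.range ((h1 a).length * cL h1 h2 a)).map (fun i =>
    (h2 ((h1 a).getD (i / cL h1 h2 a) d0)).getD (i % cL h1 h2 a) e0)

/-- one answer of the second reduction -/
def cI (d0 : β) (h1 : α → List β) (h2 : β → List γ) (p2 : β × List ℕ → ℕ)
    (x : (α × List ℕ) × ℕ) : ℕ :=
  p2 ((h1 x.1.1).getD x.2 d0, (List.range (h2 ((h1 x.1.1).getD x.2 d0)).length).map
    (fun j => x.1.2.getD (x.2 * cL h1 h2 x.1.1 + j) 0))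

/-- the final computation of the composed reduction -/
def cP (d0 : β) (h1 : α → List β) (h2 : β → List γ) (p1 : α × List ℕ → ℕ)
    (p2 : β × List ℕ → ℕ) (p : α × List ℕ) : ℕ :=
  p1 (p.1, (List.range (h1 p.1).length).map (fun t => cI d0 h1 h2 p2 (p, t)))

variable {h1 : α → List β} {h2 : β → List γ} {p1 : α × List ℕ → ℕ} {p2 : β × List ℕ → ℕ}

theorem cL_upoly (H1 : Poly h1) (H2 : Poly h2) : UPoly (cL h1 h2) :=
  UPoly.length (Poly.flatMap (F := fun _ b => h2 b) H1 (H2.comp (Poly.snd Poly.id)))

theorem cQ_poly (d0 : β) (e0 : γ) (H1 : Poly h1) (H2 : Poly h2) : Poly (cQ d0 e0 h1 h2) := by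
  have hL := cL_upoly H1 H2
  have hL' : Poly (fun p : α × ℕ => cL h1 h2 p.1) := (hL.comp (Poly.fst Poly.id)).toPoly
  refine Poly.map (F := fun (a : α) i =>
    (h2 ((h1 a).getD (i / cL h1 h2 a) d0)).getD (i % cL h1 h2 a) e0)
    (UPoly.mul (UPoly.length H1) hL).range ?_
  have hb : Poly (fun p : α × ℕ => (h1 p.1).getD (p.2 / cL h1 h2 p.1) d0) :=
    Poly.getD (H1.comp (Poly.fst Poly.id)) (Poly.div (Poly.snd Poly.id) hL') (Poly.const d0)
  have hb2 : Poly (fun p : α × ℕ => h2 ((h1 p.1).getD (p.2 / cL h1 h2 p.1) d0)) :=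
    Poly.comp H2 hb
  exact Poly.getD hb2 (Poly.mod (Poly.snd Poly.id) hL') (Poly.const e0)

theorem cI_poly (d0 : β) (H1 : Poly h1) (H2 : Poly h2) (P2 : Poly p2) :
    Poly (cI d0 h1 h2 p2) := by
  have hL := cL_upoly H1 H2
  have hb : Poly (fun x : (α × List ℕ) × ℕ => (h1 x.1.1).getD x.2 d0) :=
    Poly.getD (H1.comp (Poly.fst (Poly.fst Poly.id))) (Poly.snd Poly.id) (Poly.const d0)
  have hb2 : Poly (fun x : (α × List ℕ) × ℕ => h2 ((h1 x.1.1).getD x.2 d0)) := Poly.comp H2 hb
  have hm : Poly (fun x : (α × List ℕ) × ℕ =>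
      (List.range (h2 ((h1 x.1.1).getD x.2 d0)).length).map
        (fun j => x.1.2.getD (x.2 * cL h1 h2 x.1.1 + j) 0)) := by
    refine Poly.map (F := fun (x : (α × List ℕ) × ℕ) j =>
      x.1.2.getD (x.2 * cL h1 h2 x.1.1 + j) 0) (Poly.range_length hb2) ?_
    have e1 : Poly (fun y : ((α × List ℕ) × ℕ) × ℕ => y.1.1.2) :=
      Poly.snd (Poly.fst (Poly.fst Poly.id))
    have e2 : Poly (fun y : ((α × List ℕ) × ℕ) × ℕ => cL h1 h2 y.1.1.1) :=
      (hL.comp (Poly.fst (Poly.fst (Poly.fst Poly.id)))).toPoly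
    exact Poly.getD e1 (Poly.add (Poly.mul (Poly.snd (Poly.fst Poly.id)) e2) (Poly.snd Poly.id))
      (Poly.const 0)
  have h := Poly.comp P2 (Poly.pair hb hm)
  exact h

theorem cP_poly (d0 : β) (H1 : Poly h1) (H2 : Poly h2) (P1 : Poly p1) (P2 : Poly p2) :
    Poly (cP d0 h1 h2 p1 p2) := by
  have hm : Poly (fun p : α × List ℕ =>
      (List.range (h1 p.1).length).map (fun t => cI d0 h1 h2 p2 (p, t))) :=
    Poly.map (F := fun (p : α × List ℕ) t => cI d0 h1 h2 p2 (p, t))
      (Poly.range_length (H1.comp (Poly.fst Poly.id))) (cI_poly d0 H1 H2 P2)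
  have h := Poly.comp P1 (Poly.pair (Poly.fst Poly.id) hm)
  exact h

omit [TEnc β] [TEnc γ] in
theorem length_le_flatMap (l : List β) (h : β → List γ) (b : β) (hb : b ∈ l) :
    (h b).length ≤ (l.flatMap h).length := by
  induction l with
  | nil => simp at hb
  | cons x l ih =>
    rw [List.flatMap_cons, List.length_append]
    rcases List.mem_cons.1 hb with rfl | h'
    · omega
    · have := ih h'
      omega

omit [TEnc β] in
theorem map_range_getD {δ : Type} (l : List β) (d0 : β) (X : β → δ) :
    (List.range l.length).map (fun t => X (l.getD t d0)) = l.map X := by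
  apply List.ext_getElem
  · simp
  · intro i h h'
    rw [List.getElem_map, List.getElem_map, List.getElem_range]
    rw [List.length_map] at h'
    rw [List.getD_eq_getElem _ _ h']

omit [TEnc α] [TEnc β] [TEnc γ] in
theorem cP_correct (d0 : β) (e0 : γ) (h1 : α → List β) (h2 : β → List γ)
    (p1 : α × List ℕ → ℕ) (p2 : β × List ℕ → ℕ) (a : α) (G : γ → ℕ) :
    cP d0 h1 h2 p1 p2 (a, (cQ d0 e0 h1 h2 a).map G) =
      p1 (a, (h1 a).map (fun b => p2 (b, (h2 b).map G))) := by
  unfold cP
  simp only
  congr 2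
  rw [← map_range_getD (h1 a) d0]
  refine List.map_congr_left fun t ht => ?_
  rw [List.mem_range] at ht
  unfold cI
  simp only
  congr 2
  set b := (h1 a).getD t d0 with hb
  set L := cL h1 h2 a with hL
  have hbm : b ∈ h1 a := by
    rw [hb, List.getD_eq_getElem _ _ ht]
    exact List.getElem_mem _
  have hbL : (h2 b).length ≤ L := length_le_flatMap (h1 a) h2 b hbm
  rw [← map_range_getD (h2 b) e0 G]
  refine List.map_congr_left fun j hj => ?_
  rw [List.mem_range] at hj
  have hidx : t * L + j < (h1 a).length * L := by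
    have h3 : (t + 1) * L ≤ (h1 a).length * L := Nat.mul_le_mul_right L ht
    have h4 : (t + 1) * L = t * L + L := by ring
    omega
  have hlen : t * L + j < ((cQ d0 e0 h1 h2 a).map G).length := by
    rw [List.length_map, cQ, List.length_map, List.length_range]
    exact hidx
  rw [List.getD_eq_getElem _ _ hlen, List.getElem_map]
  congr 1
  have hjL : j < L := by omega
  have e1 : (t * L + j) / L = t := by
    rw [mul_comm, Nat.mul_add_div (by omega), Nat.div_eq_of_lt hjL, add_zero]
  have e2 : (t * L + j) % L = j := by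
    rw [mul_comm, Nat.mul_add_mod, Nat.mod_eq_of_lt hjL]
  simp only [cQ, List.getElem_map, List.getElem_range]
  rw [← hL, e1, e2]

end Compose

/-! ### The reduction from `#SAT` to the 0-1 permanent -/

section Perm

/-- the queries: 0-1 matrices -/
def qs1 (φ : CNF ℕ) : List LL :=
  (List.range (qF φ + 1)).map (fun t => MF φ (tF (φ, t)))

/-- the final computation -/
def post1 (p : CNF ℕ × List ℕ) : ℕ :=
  alt (qF p.1) (fun t => p.2.getD t 0 / (kF p.1).factorial) /
    (2 ^ qF p.1 * (qF p.1).factorial)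

theorem qs1_poly : Poly qs1 :=
  Poly.map (F := fun (φ : CNF ℕ) t => MF φ (tF (φ, t)))
    (UPoly.add qF_upoly (UPoly.const 1)).range MF_poly

theorem post1_poly : Poly post1 := by
  have hq : UPoly (fun p : CNF ℕ × List ℕ => qF p.1) := qF_upoly.comp (Poly.fst Poly.id)
  have h0 : Poly (fun z : (CNF ℕ × List ℕ) × ℕ => z.1.2.getD z.2 0) :=
    Poly.getD (Poly.snd (Poly.fst Poly.id)) (Poly.snd Poly.id) (Poly.const 0)
  have h1 : Poly (fun z : (CNF ℕ × List ℕ) × ℕ => z.1.2.getD z.2 0 / (kF z.1.1).factorial) :=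
    Poly.div h0 (upoly_fact (kF_upoly.comp (Poly.fst (Poly.fst Poly.id))))
  exact Poly.div (alt_poly (g := fun (p : CNF ℕ × List ℕ) t =>
    p.2.getD t 0 / (kF p.1).factorial) hq h1) (Poly.mul (upoly_pow2 hq) (upoly_fact hq))

theorem post1_correct (φ : CNF ℕ) : post1 (φ, (qs1 φ).map F) = satCount φ := by
  have htF : ∀ t ≤ qF φ, tF (φ, t) = t := fun t ht => Nat.min_eq_left ht
  have h1 : alt (qF φ) (fun t => ((qs1 φ).map F).getD t 0 / (kF φ).factorial) =
      2 ^ qF φ * (qF φ).factorial * satCount φ := by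
    rw [alt_congr _ _ (fun t => F (MF φ t) / (kF φ).factorial)]
    · apply alt_eq
      have h2 := sat_eq φ
      push_cast
      push_cast at h2
      exact h2
    · intro t ht
      have hlen : t < ((qs1 φ).map F).length := by
        rw [List.length_map, qs1, List.length_map, List.length_range]
        omega
      rw [List.getD_eq_getElem _ _ hlen, List.getElem_map]
      simp only [qs1, List.getElem_map, List.getElem_range]
      rw [htF t ht]
  rw [post1]
  simp only
  rw [h1, Nat.mul_div_cancel_left _ (by positivity)]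

theorem F_size_sz (A : LL) :
    (F A).size ≤ (Polynomial.X * Polynomial.X + Polynomial.C 1 : Polynomial ℕ).eval (sz A) := by
  refine (F_size A).trans ?_
  have h := length_lt_sz A
  simp only [Polynomial.eval_add, Polynomial.eval_mul, Polynomial.eval_X, Polynomial.eval_C]
  have := Nat.mul_le_mul h.le h.le
  omega

/-- **The 0-1 permanent is `#P`-hard.** -/
theorem hard_F : SharpPHard (strFn F) :=
  sharpPHard_of_satCount qs1 post1 qs1_poly post1_poly (fun φ => (post1_correct φ).symm) _ F_size_sz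

end Perm

/-! ### Membership in `#P` -/

section Membership

/-- the test for staircase matrices, for square matrices -/
def stairB (A : LL) : Bool :=
  (List.range A.length).all fun i => (List.range A.length).all fun p =>
    (List.range A.length).all fun i' => (List.range A.length).all fun j' =>
      (List.range A.length).all fun q => (List.range A.length).all fun j =>
        !(decide (i ≤ p) && decide (p ≤ i') && decide (j' ≤ q) && decide (q ≤ j) && ent A i j &&
          ent A i' j') || ent A p q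

theorem stairB_poly : Poly stairB := by
  have hA1 : Poly (fun x : LL × ℕ => x.1) := Poly.fst Poly.id
  have hA2 : Poly (fun x : (LL × ℕ) × ℕ => x.1.1) := Poly.fst (Poly.fst Poly.id)
  have hA3 : Poly (fun x : ((LL × ℕ) × ℕ) × ℕ => x.1.1.1) := Poly.fst (Poly.fst (Poly.fst Poly.id))
  have hA4 : Poly (fun x : (((LL × ℕ) × ℕ) × ℕ) × ℕ => x.1.1.1.1) :=
    Poly.fst (Poly.fst (Poly.fst (Poly.fst Poly.id)))
  have hA5 : Poly (fun x : ((((LL × ℕ) × ℕ) × ℕ) × ℕ) × ℕ => x.1.1.1.1.1) :=
    Poly.fst (Poly.fst (Poly.fst (Poly.fst (Poly.fst Poly.id))))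
  have hA6 : Poly (fun x : (((((LL × ℕ) × ℕ) × ℕ) × ℕ) × ℕ) × ℕ => x.1.1.1.1.1.1) :=
    Poly.fst (Poly.fst (Poly.fst (Poly.fst (Poly.fst (Poly.fst Poly.id)))))
  have hi : Poly (fun x : (((((LL × ℕ) × ℕ) × ℕ) × ℕ) × ℕ) × ℕ => x.1.1.1.1.1.2) :=
    Poly.snd (Poly.fst (Poly.fst (Poly.fst (Poly.fst (Poly.fst Poly.id)))))
  have hp : Poly (fun x : (((((LL × ℕ) × ℕ) × ℕ) × ℕ) × ℕ) × ℕ => x.1.1.1.1.2) :=
    Poly.snd (Poly.fst (Poly.fst (Poly.fst (Poly.fst Poly.id))))
  have hi' : Poly (fun x : (((((LL × ℕ) × ℕ) × ℕ) × ℕ) × ℕ) × ℕ => x.1.1.1.2) :=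
    Poly.snd (Poly.fst (Poly.fst (Poly.fst Poly.id)))
  have hj' : Poly (fun x : (((((LL × ℕ) × ℕ) × ℕ) × ℕ) × ℕ) × ℕ => x.1.1.2) :=
    Poly.snd (Poly.fst (Poly.fst Poly.id))
  have hq : Poly (fun x : (((((LL × ℕ) × ℕ) × ℕ) × ℕ) × ℕ) × ℕ => x.1.2) :=
    Poly.snd (Poly.fst Poly.id)
  have hj : Poly (fun x : (((((LL × ℕ) × ℕ) × ℕ) × ℕ) × ℕ) × ℕ => x.2) := Poly.snd Poly.id
  have hent : ∀ (u v : (((((LL × ℕ) × ℕ) × ℕ) × ℕ) × ℕ) × ℕ → ℕ), Poly u → Poly v →
      Poly (fun x => ent x.1.1.1.1.1.1 (u x) (v x)) := by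
    intro u v hu hv
    exact ent_poly.comp (f := fun x : (((((LL × ℕ) × ℕ) × ℕ) × ℕ) × ℕ) × ℕ =>
      (x.1.1.1.1.1.1, u x, v x)) (Poly.pair hA6 (Poly.pair hu hv))
  have hcore : Poly (fun x : (((((LL × ℕ) × ℕ) × ℕ) × ℕ) × ℕ) × ℕ =>
      !(decide (x.1.1.1.1.1.2 ≤ x.1.1.1.1.2) && decide (x.1.1.1.1.2 ≤ x.1.1.1.2) &&
        decide (x.1.1.2 ≤ x.1.2) && decide (x.1.2 ≤ x.2) &&
        ent x.1.1.1.1.1.1 x.1.1.1.1.1.2 x.2 && ent x.1.1.1.1.1.1 x.1.1.1.2 x.1.1.2) ||
        ent x.1.1.1.1.1.1 x.1.1.1.1.2 x.1.2) :=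
    Poly.or (Poly.not (Poly.and (Poly.and (Poly.and (Poly.and (Poly.and
      (Poly.decide_le hi hp) (Poly.decide_le hp hi')) (Poly.decide_le hj' hq))
      (Poly.decide_le hq hj)) (hent _ _ hi hj)) (hent _ _ hi' hj'))) (hent _ _ hp hq)
  refine Poly.all (p := fun (A : LL) i => (List.range A.length).all fun p =>
    (List.range A.length).all fun i' => (List.range A.length).all fun j' =>
      (List.range A.length).all fun q => (List.range A.length).all fun j =>
        !(decide (i ≤ p) && decide (p ≤ i') && decide (j' ≤ q) && decide (q ≤ j) && ent A i j &&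
          ent A i' j') || ent A p q) (Poly.range_length Poly.id) ?_
  refine Poly.all (p := fun (x : LL × ℕ) p =>
    (List.range x.1.length).all fun i' => (List.range x.1.length).all fun j' =>
      (List.range x.1.length).all fun q => (List.range x.1.length).all fun j =>
        !(decide (x.2 ≤ p) && decide (p ≤ i') && decide (j' ≤ q) && decide (q ≤ j) &&
          ent x.1 x.2 j && ent x.1 i' j') || ent x.1 p q) (Poly.range_length hA1) ?_
  refine Poly.all (p := fun (x : (LL × ℕ) × ℕ) i' =>
    (List.range x.1.1.length).all fun j' =>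
      (List.range x.1.1.length).all fun q => (List.range x.1.1.length).all fun j =>
        !(decide (x.1.2 ≤ x.2) && decide (x.2 ≤ i') && decide (j' ≤ q) && decide (q ≤ j) &&
          ent x.1.1 x.1.2 j && ent x.1.1 i' j') || ent x.1.1 x.2 q) (Poly.range_length hA2) ?_
  refine Poly.all (p := fun (x : ((LL × ℕ) × ℕ) × ℕ) j' =>
      (List.range x.1.1.1.length).all fun q => (List.range x.1.1.1.length).all fun j =>
        !(decide (x.1.1.2 ≤ x.1.2) && decide (x.1.2 ≤ x.2) && decide (j' ≤ q) && decide (q ≤ j) &&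
          ent x.1.1.1 x.1.1.2 j && ent x.1.1.1 x.2 j') || ent x.1.1.1 x.1.2 q)
      (Poly.range_length hA3) ?_
  refine Poly.all (p := fun (x : (((LL × ℕ) × ℕ) × ℕ) × ℕ) q =>
      (List.range x.1.1.1.1.length).all fun j =>
        !(decide (x.1.1.1.2 ≤ x.1.1.2) && decide (x.1.1.2 ≤ x.1.2) && decide (x.2 ≤ q) &&
          decide (q ≤ j) && ent x.1.1.1.1 x.1.1.1.2 j && ent x.1.1.1.1 x.1.2 x.2) ||
          ent x.1.1.1.1 x.1.1.2 q) (Poly.range_length hA4) ?_
  exact Poly.all (p := fun (x : ((((LL × ℕ) × ℕ) × ℕ) × ℕ) × ℕ) j =>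
        !(decide (x.1.1.1.1.2 ≤ x.1.1.1.2) && decide (x.1.1.1.2 ≤ x.1.1.2) &&
          decide (x.1.2 ≤ x.2) && decide (x.2 ≤ j) && ent x.1.1.1.1.1 x.1.1.1.1.2 j &&
          ent x.1.1.1.1.1 x.1.1.2 x.1.2) || ent x.1.1.1.1.1 x.1.1.1.2 x.2)
        (Poly.range_length hA5) hcore

theorem ent_lt {A : LL} (hsq : ∀ r ∈ A, r.length = A.length) {i j : ℕ} (h : ent A i j = true) :
    i < A.length ∧ j < A.length := by
  unfold ent at h
  have hi : i < A.length := by
    by_contra hi
    have h0 : A.getD i [] = [] := List.getD_eq_default _ _ (by omega)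
    rw [h0] at h
    simp at h
  refine ⟨hi, ?_⟩
  by_contra hj
  have h2 : (A.getD i []).length = A.length := by
    rw [List.getD_eq_getElem _ _ hi]
    exact hsq _ (List.getElem_mem hi)
  rw [List.getD_eq_default _ _ (by omega)] at h
  simp at h

theorem stairB_iff {A : LL} (hsq : ∀ r ∈ A, r.length = A.length) :
    stairB A = true ↔ Staircase A := by
  unfold stairB Staircase
  simp only [List.all_eq_true, List.mem_range, Bool.or_eq_true, Bool.not_eq_true',
    Bool.and_eq_false_iff, decide_eq_false_iff_not]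
  constructor
  · intro h i p i' j q j' h1 h2 h3 h4 h5 h6
    have a1 := ent_lt hsq h5
    have a2 := ent_lt hsq h6
    rcases h i a1.1 p (by omega) i' a2.1 j' a2.2 q (by omega) j a1.2 with h7 | h7
    · rcases h7 with ((((h7 | h7) | h7) | h7) | h7) | h7
      · exact absurd h1 h7
      · exact absurd h2 h7
      · exact absurd h3 h7
      · exact absurd h4 h7
      · rw [h5] at h7; exact absurd h7 (by simp)
      · rw [h6] at h7; exact absurd h7 (by simp)
    · exact h7
  · intro h i _ p _ i' _ j' _ q _ j _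
    by_cases h1 : i ≤ p
    · by_cases h2 : p ≤ i'
      · by_cases h3 : j' ≤ q
        · by_cases h4 : q ≤ j
          · cases h5 : ent A i j with
            | false => exact Or.inl (Or.inl (Or.inr rfl))
            | true =>
              cases h6 : ent A i' j' with
              | false => exact Or.inl (Or.inr rfl)
              | true => exact Or.inr (h i p i' j q j' h1 h2 h3 h4 h5 h6)
          · exact Or.inl (Or.inl (Or.inl (Or.inr h4)))
        · exact Or.inl (Or.inl (Or.inl (Or.inl (Or.inr h3))))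
      · exact Or.inl (Or.inl (Or.inl (Or.inl (Or.inl (Or.inr h2)))))
    · exact Or.inl (Or.inl (Or.inl (Or.inl (Or.inl (Or.inl h1)))))

/-- test of one entry of a certificate -/
def certE (x : (LL × List ℕ) × ℕ) : Bool :=
  decide (x.1.2.getD x.2 0 < x.1.1.length) && ent x.1.1 x.2 (x.1.2.getD x.2 0) &&
    ((List.range x.1.1.length).all fun k =>
      decide (k = x.2) || !(decide (x.1.2.getD k 0 = x.1.2.getD x.2 0)))

/-- test of a certificate for the permanent of a staircase matrix: the list of the values of a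
permutation -/
def certF (A : LL) (w : List ℕ) : Bool :=
  sqB A && (decide (w.length = A.length) && (List.range A.length).all (fun i => certE ((A, w), i)))

/-- certificates for the staircase permanent -/
def certS (A : LL) (w : List ℕ) : Bool := stairB A && certF A w

theorem certE_poly : Poly certE := by
  have hA : Poly (fun x : (LL × List ℕ) × ℕ => x.1.1) := Poly.fst (Poly.fst Poly.id)
  have hw : Poly (fun x : (LL × List ℕ) × ℕ => x.1.2) := Poly.snd (Poly.fst Poly.id)
  have hi : Poly (fun x : (LL × List ℕ) × ℕ => x.2) := Poly.snd Poly.id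
  have h1 : Poly (fun x : (LL × List ℕ) × ℕ => x.1.2.getD x.2 0) := Poly.getD hw hi (Poly.const 0)
  have h2 : Poly (fun x : (LL × List ℕ) × ℕ => ent x.1.1 x.2 (x.1.2.getD x.2 0)) :=
    ent_poly.comp (f := fun x : (LL × List ℕ) × ℕ => (x.1.1, x.2, x.1.2.getD x.2 0))
      (Poly.pair hA (Poly.pair hi h1))
  have h3 : Poly (fun x : (LL × List ℕ) × ℕ => (List.range x.1.1.length).all fun k =>
      decide (k = x.2) || !(decide (x.1.2.getD k 0 = x.1.2.getD x.2 0))) := by
    refine Poly.all (p := fun (x : (LL × List ℕ) × ℕ) k =>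
      decide (k = x.2) || !(decide (x.1.2.getD k 0 = x.1.2.getD x.2 0)))
      (Poly.range_length hA) ?_
    have e1 : Poly (fun y : ((LL × List ℕ) × ℕ) × ℕ => y.1.1.2.getD y.2 0) :=
      Poly.getD (Poly.snd (Poly.fst (Poly.fst Poly.id))) (Poly.snd Poly.id) (Poly.const 0)
    have e2 : Poly (fun y : ((LL × List ℕ) × ℕ) × ℕ => y.1.1.2.getD y.1.2 0) :=
      h1.comp (Poly.fst Poly.id)
    exact Poly.or (Poly.decide_eq (Poly.snd Poly.id) (Poly.snd (Poly.fst Poly.id)))
      (Poly.not (Poly.decide_eq e1 e2))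
  exact Poly.and (Poly.and (Poly.decide_lt h1 (Poly.length hA)) h2) h3

theorem certF_poly : Poly (fun x : LL × List ℕ => certF x.1 x.2) := by
  have h0 : Poly (fun x : LL × List ℕ => decide (x.2.length = x.1.length)) :=
    Poly.decide_eq (Poly.length (Poly.snd Poly.id)) (Poly.length (Poly.fst Poly.id))
  exact Poly.and (sqB_poly.comp (Poly.fst Poly.id)) (Poly.and h0
    (Poly.all (p := fun (x : LL × List ℕ) i => certE (x, i))
      (Poly.range_length (Poly.fst Poly.id)) certE_poly))

theorem certS_poly : Poly (fun x : LL × List ℕ => certS x.1 x.2) :=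
  Poly.and (stairB_poly.comp (Poly.fst Poly.id)) certF_poly

theorem sqB_iff (A : LL) : sqB A = true ↔ ∀ r ∈ A, r.length = A.length := by
  rw [sqB, List.all_eq_true]
  simp only [decide_eq_true_eq]

theorem certF_iff (A : LL) (w : List ℕ) : certF A w = true ↔
    (∀ r ∈ A, r.length = A.length) ∧ ∃ h : w.length = A.length,
      ∃ σ : Equiv.Perm (Fin A.length), (∀ i : Fin A.length, (σ i).val = w[i.val]) ∧
        ∀ i : Fin A.length, ent A i.val (σ i).val = true := by
  rw [certF, Bool.and_eq_true, Bool.and_eq_true, decide_eq_true_eq, List.all_eq_true, sqB_iff]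
  refine and_congr_right fun hsq => ?_
  constructor
  · rintro ⟨hlen, h⟩
    refine ⟨hlen, ?_⟩
    have hall : ∀ i : Fin A.length, w[i.val] < A.length ∧ ent A i.val w[i.val] = true ∧
        ∀ k : Fin A.length, w[k.val] = w[i.val] → k = i := by
      intro i
      have h1 := h i.val (List.mem_range.2 i.2)
      simp only [certE, Bool.and_eq_true, decide_eq_true_eq, List.all_eq_true, List.mem_range,
        Bool.or_eq_true, Bool.not_eq_true', decide_eq_false_iff_not] at h1
      rw [List.getD_eq_getElem w _ (by omega)] at h1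
      refine ⟨h1.1.1, h1.1.2, fun k hk => ?_⟩
      rcases h1.2 k.val k.2 with h2 | h2
      · exact Fin.ext h2
      · rw [List.getD_eq_getElem w _ (by omega)] at h2
        exact absurd hk h2
    let f : Fin A.length → Fin A.length := fun i => ⟨w[i.val], (hall i).1⟩
    have hf : Function.Injective f := by
      intro a b hab
      exact (hall b).2.2 a (Fin.ext_iff.1 hab)
    refine ⟨Equiv.ofBijective f (Finite.injective_iff_bijective.1 hf), fun i => rfl, fun i => ?_⟩
    exact (hall i).2.1
  · rintro ⟨hlen, σ, hσ1, hσ2⟩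
    refine ⟨hlen, fun i hi => ?_⟩
    rw [List.mem_range] at hi
    have hg : ∀ k (hk : k < A.length), w.getD k 0 = (σ ⟨k, hk⟩).val := by
      intro k hk
      rw [List.getD_eq_getElem w _ (by omega)]
      exact (hσ1 ⟨k, hk⟩).symm
    simp only [certE, Bool.and_eq_true, decide_eq_true_eq, List.all_eq_true, List.mem_range,
      Bool.or_eq_true, Bool.not_eq_true', decide_eq_false_iff_not]
    rw [hg i hi]
    refine ⟨⟨(σ ⟨i, hi⟩).2, hσ2 ⟨i, hi⟩⟩, fun k hk => ?_⟩
    rw [hg k hk]
    by_cases hki : k = i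
    · exact Or.inl hki
    · refine Or.inr fun h' => hki ?_
      have h2 := σ.injective (Fin.ext h')
      exact Fin.ext_iff.1 h2

theorem card_certF (A : LL) : Nat.card {w : List ℕ // certF A w = true} = F A := by
  by_cases hsq : ∀ r ∈ A, r.length = A.length
  · rw [F_eq_card' A hsq _ rfl, ← Fintype.card_subtype, ← Nat.card_eq_fintype_card]
    symm
    refine Nat.card_congr (Equiv.ofBijective
      (fun σ => (⟨List.ofFn (fun i => (σ.1 i).val), ?_⟩ : {w : List ℕ // certF A w = true}))
        ⟨?_, ?_⟩)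
    · rw [certF_iff]
      exact ⟨hsq, List.length_ofFn, σ.1, fun i => by rw [List.getElem_ofFn], σ.2⟩
    · intro f g h
      apply Subtype.ext
      have h1 := congrArg Subtype.val h
      simp only at h1
      have h2 := List.ofFn_injective h1
      ext i
      exact congrFun h2 i
    · rintro ⟨w, hc⟩
      obtain ⟨_, hlen, σ, hσ1, hσ2⟩ := (certF_iff A w).1 hc
      refine ⟨⟨σ, hσ2⟩, ?_⟩
      apply Subtype.ext
      simp only
      apply List.ext_getElem
      · rw [List.length_ofFn, hlen]
      · intro i h1 h2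
        rw [List.getElem_ofFn]
        exact hσ1 ⟨i, by omega⟩
  · rw [F, if_neg hsq, Nat.card_eq_zero]
    left
    exact ⟨fun w => hsq ((certF_iff A w.1).1 w.2).1⟩

open Classical in
/-- The permanent of staircase matrices; other inputs have value `0`. -/
noncomputable def FS' (A : List (List Bool)) : ℕ := if Staircase A then F A else 0

theorem card_certS (A : LL) : Nat.card {w : List ℕ // certS A w = true} = FS' A := by
  by_cases hsq : ∀ r ∈ A, r.length = A.length
  · rw [FS']
    split_ifs with h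
    · rw [← card_certF A]
      refine Nat.card_congr (Equiv.subtypeEquivRight fun w => ?_)
      rw [certS, Bool.and_eq_true, stairB_iff hsq]
      exact ⟨fun h' => h'.2, fun h' => ⟨h, h'⟩⟩
    · rw [Nat.card_eq_zero]
      left
      refine ⟨fun w => h ?_⟩
      have h2 := w.2
      rw [certS, Bool.and_eq_true, stairB_iff hsq] at h2
      exact h2.1
  · have h1 : FS' A = 0 := by
      rw [FS']
      split_ifs
      · rw [F, if_neg hsq]
      · rfl
    rw [h1, Nat.card_eq_zero]
    left
    refine ⟨fun w => hsq ?_⟩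
    have h2 := w.2
    rw [certS, Bool.and_eq_true] at h2
    exact ((certF_iff A w.1).1 h2.2).1

theorem sz_cert (A : LL) (w : List ℕ) (hc : certF A w = true) : sz w ≤
    (Polynomial.X * (Polynomial.C 4 * Polynomial.X + Polynomial.C 2) + Polynomial.C 1 :
      Polynomial ℕ).eval (sz A) := by
  obtain ⟨_, hlen, σ, hσ1, _⟩ := (certF_iff A w).1 hc
  have h1 : ∀ a ∈ w, sz a ≤ 4 * A.length + 1 := by
    intro a ha
    obtain ⟨i, hi, rfl⟩ := List.mem_iff_getElem.1 ha
    have h2 : w[i] < A.length := by
      rw [← hσ1 ⟨i, by omega⟩]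
      exact (σ _).2
    have h3 := sz_nat_le w[i]
    have h4 : (w[i]).size ≤ w[i] := Nat.size_le.2 Nat.lt_two_pow_self
    omega
  have h2 := sz_le_length_mul w _ h1
  have h3 := length_lt_sz A
  simp only [Polynomial.eval_add, Polynomial.eval_mul, Polynomial.eval_X, Polynomial.eval_C]
  have h4 : w.length * (4 * A.length + 1 + 1) ≤ sz A * (4 * sz A + 2) :=
    Nat.mul_le_mul (by omega) (by omega)
  omega

/-- **The 0-1 permanent is in `#P`.** -/
theorem sharpP_F : SharpP (strFn F) := by
  have h := sharpP_typed certF certF_poly _ sz_cert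
  have e : (fun A : LL => Nat.card {w : List ℕ // certF A w = true}) = F := funext card_certF
  rw [e] at h
  exact h

/-- **The staircase permanent is in `#P`.** -/
theorem sharpP_FS : SharpP (strFn FS') := by
  have h := sharpP_typed certS certS_poly _ (fun A w hc => sz_cert A w (by
    rw [certS, Bool.and_eq_true] at hc
    exact hc.2))
  have e : (fun A : LL => Nat.card {w : List ℕ // certS A w = true}) = FS' := funext card_certS
  rw [e] at h
  exact h

end Membership

/-! ### Hardness -/

section Hardness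

theorem FS_size_sz (A : LL) :
    (FS' A).size ≤ (Polynomial.X * Polynomial.X + Polynomial.C 1 : Polynomial ℕ).eval (sz A) := by
  rw [FS']
  split_ifs
  · exact F_size_sz A
  · simp

/-- Hardness of the staircase permanent from a nonadaptive reduction of the 0-1 permanent to it. -/
theorem hard_FS_of (qs : LL → List LL) (post : LL × List ℕ → ℕ) (hqs : Poly qs) (hpost : Poly post)
    (h : ∀ (A : LL) (g : LL → ℕ), (∀ B, Staircase B → g B = F B) →
      post (A, (qs A).map g) = F A) : SharpPHard (strFn FS') := by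
  refine sharpPHard_of_satCount (cQ ([] : LL) ([] : LL) qs1 qs)
    (cP ([] : LL) qs1 qs post1 post) (cQ_poly _ _ qs1_poly hqs)
    (cP_poly _ qs1_poly hqs post1_poly hpost) (fun φ => ?_) _ FS_size_sz
  rw [cP_correct]
  have e : (fun A : LL => post (A, (qs A).map FS')) = F := funext fun A =>
    h A FS' (fun B hB => by rw [FS', if_pos hB])
  rw [e, post1_correct]

/-- `#P`-functions are polynomial-time computable iff the permanent of staircase matrices is. -/
theorem fp_iff_FS_of (qs : LL → List LL) (post : LL × List ℕ → ℕ) (hqs : Poly qs)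
    (hpost : Poly post) (h : ∀ (A : LL) (g : LL → ℕ), (∀ B, Staircase B → g B = F B) →
      post (A, (qs A).map g) = F A) : (∀ f : List Bool → ℕ, SharpP f → FP f) ↔
    ∃ g : List Bool → List Bool, PolyTime g ∧
      ∀ A : LL, Staircase A → g (bits A) = (F A).bits := by
  constructor
  · intro h'
    exact ⟨_, h' _ sharpP_F, fun A _ => by rw [strFn_bits]⟩
  · rintro ⟨g, hg, hgF⟩ f hf
    have hid : PC (bits : LL → List Bool) (id : List Bool → List Bool) (fun l => bits l) :=
      (PC.id : PC (bits : LL → List Bool) bits (fun l => l))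
    have h1 : PC (bits : LL → List Bool) (id : List Bool → List Bool) (fun l => g (bits l)) :=
      PC.comp (Pool.Agent.H642R2.TMSim.polyTime_toPC hg) hid
    have h2 : PC (bits : LL → List Bool) (bits : List Bool → List Bool) (fun l => g (bits l)) :=
      PC.comp (g := fun x : List Bool => x) (f := fun l : LL => g (bits l)) PC.ofBits h1
    have h3 : Poly (fun l : LL => valB (g (bits l))) := Poly.valBits h2
    set G : LL → ℕ := fun l => valB (g (bits l)) with hG
    have hGF : ∀ l, Staircase l → G l = F l := by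
      intro l hl
      rw [hG]
      simp only
      rw [hgF l hl, valB_bits]
    have h4 : Poly (fun φ : CNF ℕ => cP ([] : LL) qs1 qs post1 post
        (φ, (cQ ([] : LL) ([] : LL) qs1 qs φ).map G)) := by
      have h5 : Poly (fun φ : CNF ℕ => (cQ ([] : LL) ([] : LL) qs1 qs φ).map G) :=
        Poly.map (F := fun (_ : CNF ℕ) B => G B) (cQ_poly _ _ qs1_poly hqs)
          (h3.comp (Poly.snd Poly.id))
      exact (cP_poly ([] : LL) qs1_poly hqs post1_poly hpost).comp
        (f := fun φ : CNF ℕ => (φ, (cQ ([] : LL) ([] : LL) qs1 qs φ).map G))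
        (Poly.pair Poly.id h5)
    have h5 : Poly (fun φ : CNF ℕ => satCount φ) := h4.congr fun φ => by
      rw [cP_correct]
      have e : (fun A : LL => post (A, (qs A).map G)) = F := funext fun A => h A G hGF
      rw [e, post1_correct]
    obtain ⟨V, p, hV, hf⟩ := hf
    obtain ⟨G', hG', hGf⟩ := parsimonious hV p
    have h6 : Poly G' := PC.comp hG' pc_raw
    have h7 : Poly (fun x : List Bool => satCount (G' x)) := h5.comp (f := G') h6
    have h8 : Poly f := h7.congr fun x => by rw [hf x, ← hGf x]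
    exact fp_of_poly h8

end Hardness

end Pool.Agent.NPC.H498Stair
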